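import Mathlib
import Pool.Agent.Y368.Lie.Matrix

set_option autoImplicit false
set_option linter.unusedSectionVars false

/-!
# Rotations of the single indices of a tensor
-/

namespace Pool.Agent.Q217.TN

open scoped InnerProductSpace
open Pool.Agent.TH591.Lie Function

variable {ι : Type} [Fintype ι] [DecidableEq ι] {n : ι → ℕ}

/-- The real tensors with the index set `∏ t, {1, ..., n t}`. -/
abbrev Ten (n : ι → ℕ) := EuclideanSpace ℝ ((t : ι) → Fin (n t))

/-- The product of the tensor `x` and the matrix `U` with respect to the index `t`. -/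
noncomputable def act (t : ι) (U : Matrix (Fin (n t)) (Fin (n t)) ℝ) (x : Ten n) : Ten n :=
  WithLp.toLp 2 fun p => ∑ j, U (p t) j * x (update p t j)

theorem act_apply (t : ι) (U : Matrix (Fin (n t)) (Fin (n t)) ℝ) (x : Ten n)
    (p : (t : ι) → Fin (n t)) : act t U x p = ∑ j, U (p t) j * x (update p t j) := rfl

/-- A fibre of the tensor `x` in the direction of the index `t`. -/
noncomputable def fib (t : ι) (p : (t : ι) → Fin (n t)) (x : Ten n) :
    EuclideanSpace ℝ (Fin (n t)) :=
  WithLp.toLp 2 fun j => x (update p t j)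

theorem fib_apply (t : ι) (p : (t : ι) → Fin (n t)) (x : Ten n) (j : Fin (n t)) :
    fib t p x j = x (update p t j) := rfl

theorem fib_update (t : ι) (p : (t : ι) → Fin (n t)) (j : Fin (n t)) (x : Ten n) :
    fib t (update p t j) x = fib t p x := by
  ext k
  simp [fib_apply]

theorem fib_add (t : ι) (p : (t : ι) → Fin (n t)) (x y : Ten n) :
    fib t p (x + y) = fib t p x + fib t p y := by
  ext k
  simp [fib_apply]

theorem fib_smul (t : ι) (p : (t : ι) → Fin (n t)) (c : ℝ) (x : Ten n) :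
    fib t p (c • x) = c • fib t p x := by
  ext k
  simp [fib_apply]

/-- The operator `L` applied to the index `t`. -/
noncomputable def slot (t : ι)
    (L : EuclideanSpace ℝ (Fin (n t)) →L[ℝ] EuclideanSpace ℝ (Fin (n t))) : Ten n →L[ℝ] Ten n :=
  LinearMap.toContinuousLinearMap
    { toFun := fun x => WithLp.toLp 2 fun p => L (fib t p x) (p t)
      map_add' := fun x y => by
        ext p
        simp [fib_add]
      map_smul' := fun c x => by
        ext p
        simp [fib_smul] }

theorem slot_apply (t : ι) (L : EuclideanSpace ℝ (Fin (n t)) →L[ℝ] EuclideanSpace ℝ (Fin (n t)))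
    (x : Ten n) (p : (t : ι) → Fin (n t)) : slot t L x p = L (fib t p x) (p t) := rfl

theorem fib_slot (t : ι) (L : EuclideanSpace ℝ (Fin (n t)) →L[ℝ] EuclideanSpace ℝ (Fin (n t)))
    (x : Ten n) (p : (t : ι) → Fin (n t)) : fib t p (slot t L x) = L (fib t p x) := by
  ext j
  rw [fib_apply, slot_apply, fib_update, update_self]

theorem toMat_sum (m : ℕ) (L : EuclideanSpace ℝ (Fin m) →L[ℝ] EuclideanSpace ℝ (Fin m))
    (v : EuclideanSpace ℝ (Fin m)) (i : Fin m) : L v i = ∑ j, toMat L i j * v j := by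
  have h : v = ∑ c, v c • (EuclideanSpace.single c (1 : ℝ)) := by
    ext i
    simp [Finset.sum_apply, Pi.single_apply]
  conv_lhs => rw [h]
  rw [map_sum]
  simp only [map_smul, WithLp.ofLp_sum, Finset.sum_apply, WithLp.ofLp_smul, Pi.smul_apply,
    smul_eq_mul, toMat_apply]
  refine Finset.sum_congr rfl fun c _ => ?_
  ring

theorem slot_eq_act (t : ι)
    (L : EuclideanSpace ℝ (Fin (n t)) →L[ℝ] EuclideanSpace ℝ (Fin (n t))) (x : Ten n) :
    slot t L x = act t (toMat L) x := by
  ext p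
  rw [slot_apply, toMat_sum, act_apply]
  rfl

theorem slot_mul (t : ι) (L M : EuclideanSpace ℝ (Fin (n t)) →L[ℝ] EuclideanSpace ℝ (Fin (n t))) :
    slot t (L * M) = slot t L * slot t M := by
  ext x p
  show slot t (L * M) x p = slot t L (slot t M x) p
  rw [slot_apply, slot_apply, fib_slot]
  rfl

theorem slot_one (t : ι) :
    slot t (1 : EuclideanSpace ℝ (Fin (n t)) →L[ℝ] EuclideanSpace ℝ (Fin (n t))) = 1 := by
  ext x p
  rw [slot_apply]
  show fib t p x (p t) = x p
  rw [fib_apply, update_eq_self]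

/-- `slot t` as a homomorphism of algebras. -/
noncomputable def slotHom (t : ι) :
    (EuclideanSpace ℝ (Fin (n t)) →L[ℝ] EuclideanSpace ℝ (Fin (n t))) →ₐ[ℝ]
      (Ten n →L[ℝ] Ten n) :=
  AlgHom.ofLinearMap
    { toFun := slot t
      map_add' := fun L M => by
        ext x p
        show slot t (L + M) x p = slot t L x p + slot t M x p
        rw [slot_apply, slot_apply, slot_apply]
        simp
      map_smul' := fun c L => by
        ext x p
        show slot t (c • L) x p = c • slot t L x p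
        rw [slot_apply, slot_apply]
        simp }
    (slot_one t) (slot_mul t)

theorem slotHom_apply (t : ι)
    (L : EuclideanSpace ℝ (Fin (n t)) →L[ℝ] EuclideanSpace ℝ (Fin (n t))) :
    slotHom t L = slot t L := rfl

theorem slot_exp (t : ι) (L : EuclideanSpace ℝ (Fin (n t)) →L[ℝ] EuclideanSpace ℝ (Fin (n t))) :
    NormedSpace.exp (slot t L) = slot t (NormedSpace.exp L) := by
  let _ : NormedAlgebra ℚ (EuclideanSpace ℝ (Fin (n t)) →L[ℝ] EuclideanSpace ℝ (Fin (n t))) :=
    NormedAlgebra.restrictScalars ℚ ℝ _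
  let _ : NormedAlgebra ℚ (Ten n →L[ℝ] Ten n) := NormedAlgebra.restrictScalars ℚ ℝ _
  have hc : Continuous (slotHom (n := n) t) :=
    LinearMap.continuous_of_finiteDimensional (slotHom (n := n) t).toLinearMap
  have h := NormedSpace.map_exp (slotHom (n := n) t) hc L
  rw [slotHom_apply, slotHom_apply] at h
  exact h.symm

theorem slot_comm (t u : ι) (h : t ≠ u)
    (L : EuclideanSpace ℝ (Fin (n t)) →L[ℝ] EuclideanSpace ℝ (Fin (n t)))
    (M : EuclideanSpace ℝ (Fin (n u)) →L[ℝ] EuclideanSpace ℝ (Fin (n u))) :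
    Commute (slot t L) (slot u M) := by
  ext x p
  show slot t L (slot u M x) p = slot u M (slot t L x) p
  rw [slot_eq_act, slot_eq_act, slot_eq_act, slot_eq_act]
  simp only [act_apply, Finset.mul_sum]
  rw [Finset.sum_comm]
  refine Finset.sum_congr rfl fun j _ => Finset.sum_congr rfl fun k _ => ?_
  rw [update_of_ne h.symm, update_of_ne h, update_comm h]
  ring

/-- The sum over all fibres. -/
theorem sum_update (t : ι) (F : ((t : ι) → Fin (n t)) → ℝ) :
    ∑ p, ∑ j : Fin (n t), F (update p t j) = n t * ∑ p, F p := by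
  let e : (((t : ι) → Fin (n t)) × Fin (n t)) ≃ (((t : ι) → Fin (n t)) × Fin (n t)) :=
    { toFun := fun z => (update z.1 t z.2, z.1 t)
      invFun := fun z => (update z.1 t z.2, z.1 t)
      left_inv := by intro z; simp
      right_inv := by intro z; simp }
  have h := e.sum_comp (fun z => F z.1)
  rw [Fintype.sum_prod_type, Fintype.sum_prod_type] at h
  have h2 : ∑ x : (t : ι) → Fin (n t), ∑ y : Fin (n t), F (e (x, y)).1
      = ∑ p, ∑ j : Fin (n t), F (update p t j) := rfl
  rw [h2] at h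
  rw [h]
  simp only [Finset.sum_const, Finset.card_univ, Fintype.card_fin, nsmul_eq_mul]
  rw [Finset.mul_sum]

theorem inner_slot (t : ι)
    (L : EuclideanSpace ℝ (Fin (n t)) →L[ℝ] EuclideanSpace ℝ (Fin (n t))) (x y : Ten n) :
    n t * ⟪slot t L x, y⟫_ℝ = ∑ p, ⟪L (fib t p x), fib t p y⟫_ℝ := by
  rw [PiLp.inner_apply, ← sum_update t (fun p => ⟪slot t L x p, y p⟫_ℝ)]
  refine Finset.sum_congr rfl fun p _ => ?_
  rw [PiLp.inner_apply]
  refine Finset.sum_congr rfl fun j _ => ?_
  rw [slot_apply, fib_update, update_self, fib_apply]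

theorem norm_fib (t : ι) (x : Ten n) : ∑ p, ‖fib t p x‖ ^ 2 = n t * ‖x‖ ^ 2 := by
  rw [EuclideanSpace.real_norm_sq_eq, ← sum_update t (fun p => x p ^ 2)]
  refine Finset.sum_congr rfl fun p _ => ?_
  rw [EuclideanSpace.real_norm_sq_eq]
  rfl

theorem slot_skew (t : ι)
    (L : EuclideanSpace ℝ (Fin (n t)) →L[ℝ] EuclideanSpace ℝ (Fin (n t))) (hL : Skew L) :
    Skew (slot (n := n) t L) := by
  intro x y
  rcases Nat.eq_zero_or_pos (n t) with h0 | h0
  · have : IsEmpty ((t : ι) → Fin (n t)) := ⟨fun p => by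
      have := (p t).2
      omega⟩
    rw [PiLp.inner_apply, PiLp.inner_apply]
    simp
  have h1 := inner_slot t L x y
  have h2 := inner_slot t L y x
  have h3 : ∑ p, ⟪L (fib t p x), fib t p y⟫_ℝ = -∑ p, ⟪L (fib t p y), fib t p x⟫_ℝ := by
    rw [← Finset.sum_neg_distrib]
    refine Finset.sum_congr rfl fun p _ => ?_
    rw [hL, real_inner_comm]
  rw [h3, ← h2, ← mul_neg] at h1
  have hn : ((n t : ℕ) : ℝ) ≠ 0 := by exact_mod_cast h0.ne'
  rw [mul_left_cancel₀ hn h1, real_inner_comm]

theorem norm_slot (t : ι)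
    (L : EuclideanSpace ℝ (Fin (n t)) →L[ℝ] EuclideanSpace ℝ (Fin (n t))) (C : ℝ) (hC : 0 ≤ C)
    (hL : ∀ v, ‖L v‖ ≤ C * ‖v‖) (x : Ten n) : ‖slot t L x‖ ≤ C * ‖x‖ := by
  rcases Nat.eq_zero_or_pos (n t) with h0 | h0
  · have : IsEmpty ((t : ι) → Fin (n t)) := ⟨fun p => by
      have := (p t).2
      omega⟩
    have h1 : slot t L x = 0 := by
      ext p
      exact (IsEmpty.false p).elim
    rw [h1, norm_zero]
    positivity
  have hn : (0 : ℝ) < n t := by exact_mod_cast h0
  have h1 := norm_fib t (slot t L x)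
  have h2 : ∑ p, ‖fib t p (slot t L x)‖ ^ 2 ≤ ∑ p, C ^ 2 * ‖fib t p x‖ ^ 2 := by
    refine Finset.sum_le_sum fun p _ => ?_
    rw [fib_slot, ← mul_pow]
    have := hL (fib t p x)
    gcongr
  rw [h1, ← Finset.mul_sum, norm_fib] at h2
  have h3 : ‖slot t L x‖ ^ 2 ≤ (C * ‖x‖) ^ 2 := by
    have : (n t : ℝ) * ‖slot t L x‖ ^ 2 ≤ n t * (C * ‖x‖) ^ 2 := by
      rw [mul_pow]
      linarith
    exact le_of_mul_le_mul_left this hn
  exact le_of_sq_le_sq h3 (by positivity)

end Pool.Agent.Q217.TN
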