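import Mathlib
import Pool.Agent.Q217.TN.Slot

set_option autoImplicit false
set_option linter.unusedSectionVars false

/-!
# Convex bodies of tensors invariant under the rotations of the single indices
-/

namespace Pool.Agent.Q217.TN

open scoped InnerProductSpace
open Pool.Agent.TH591.Lie Pool.Agent.Y368.Lie Function

variable {ι : Type} [Fintype ι] [DecidableEq ι] {n : ι → ℕ}

/-- The infinitesimal rotations of the indices. -/
noncomputable def XT (n : ι → ℕ) (z : (t : ι) × (Fin (n t) × Fin (n t))) : Ten n →L[ℝ] Ten n :=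
  slot z.1 (XI (n z.1) z.2)

theorem sum_XI_sq (m : ℕ) :
    ∑ p : Fin m × Fin m, XI m p * XI m p
      = (-(2 * ((m : ℝ) - 1))) • (1 : EuclideanSpace ℝ (Fin m) →L[ℝ] EuclideanSpace ℝ (Fin m)) := by
  ext v i
  have h1 : ∀ p : Fin m × Fin m, (XI m p * XI m p) v i
      = (v p.2 * (if p.2 = p.1 then (1 : ℝ) else 0) - v p.1) * (if p.1 = i then 1 else 0)
        - (v p.2 - v p.1 * (if p.1 = p.2 then (1 : ℝ) else 0)) * (if p.2 = i then 1 else 0) := by
    intro p
    show (xi p.1 p.2 (xi p.1 p.2 v)) i = _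
    rw [xi_apply, xi_apply]
    simp only [PiLp.sub_apply, PiLp.smul_apply, bv_apply, smul_eq_mul]
    by_cases h : p.1 = p.2
    · rw [h]; simp
    · rw [if_neg h, if_neg (Ne.symm h)]
      simp
  have h2 : (∑ p : Fin m × Fin m, XI m p * XI m p) v i
      = ∑ p : Fin m × Fin m, (XI m p * XI m p) v i := by
    simp
  rw [h2]
  simp only [h1]
  rw [Fintype.sum_prod_type]
  simp only [Finset.sum_sub_distrib, mul_ite, mul_one, mul_zero,
    Finset.sum_ite_eq', Finset.mem_univ, if_true]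
  simp
  ring

theorem XT_casimir (x : Ten n) :
    -∑ z, XT n z (XT n z x) = (∑ t, 2 * ((n t : ℝ) - 1)) • x := by
  rw [Fintype.sum_sigma, Finset.sum_smul, ← Finset.sum_neg_distrib]
  refine Finset.sum_congr rfl fun t _ => ?_
  have h : ∑ p : Fin (n t) × Fin (n t), XT n ⟨t, p⟩ (XT n ⟨t, p⟩ x)
      = slotHom t (∑ p : Fin (n t) × Fin (n t), XI (n t) p * XI (n t) p) x := by
    rw [map_sum]
    simp only [FunLike.coe_sum, Finset.sum_apply, slotHom_apply, slot_mul]
    rfl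
  rw [h, sum_XI_sq, map_smul, map_one]
  simp

theorem XT_skew (z : (t : ι) × (Fin (n t) × Fin (n t))) (x y : Ten n) :
    ⟪XT n z x, y⟫_ℝ = -⟪x, XT n z y⟫_ℝ :=
  slot_skew z.1 _ (XI_skew z.2) x y

theorem comb_norm (m : ℕ) (a : Fin m × Fin m → ℝ) (v : EuclideanSpace ℝ (Fin m)) :
    ‖(∑ p, a p • XI m p) v‖ ≤ (√2 * √(∑ p, a p ^ 2)) * ‖v‖ := by
  set s := √(∑ p, a p ^ 2) with hs
  have hss : s ^ 2 = ∑ p, a p ^ 2 := Real.sq_sqrt (Finset.sum_nonneg fun i _ => sq_nonneg _)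
  rcases eq_or_lt_of_le (Real.sqrt_nonneg (∑ p, a p ^ 2)) with h | h
  · rw [← hs] at h
    have h0 : ∀ p, a p = 0 := by
      intro p
      rw [← h] at hss
      have h1 : ∑ p, a p ^ 2 = 0 := by rw [← hss]; ring
      have := (Finset.sum_eq_zero_iff_of_nonneg (fun i _ => sq_nonneg (a i))).1 h1 p
        (Finset.mem_univ p)
      exact pow_eq_zero_iff (two_ne_zero) |>.1 this
    have h2 : (∑ p, a p • XI m p) v = 0 := by
      simp only [FunLike.coe_sum, Finset.sum_apply, smul_apply]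
      exact Finset.sum_eq_zero fun p _ => by rw [h0 p, zero_smul]
    rw [h2, norm_zero]
    positivity
  · rw [← hs] at h
    have h1 := xi_norm (fun p => a p / s) (by
      simp only [div_pow]
      rw [← Finset.sum_div, ← hss, div_self (by positivity)]) v
    have h2 : (∑ p, (a p / s) • xi p.1 p.2) v = s⁻¹ • (∑ p, a p • XI m p) v := by
      simp only [FunLike.coe_sum, Finset.sum_apply, smul_apply, Finset.smul_sum]
      refine Finset.sum_congr rfl fun p _ => ?_
      rw [smul_smul, div_eq_inv_mul]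
      rfl
    rw [h2, norm_smul, norm_inv, Real.norm_of_nonneg h.le, inv_mul_le_iff₀ h] at h1
    calc _ ≤ _ := h1
      _ = _ := by ring

theorem XT_norm (a : (t : ι) × (Fin (n t) × Fin (n t)) → ℝ) (ha : ∑ z, a z ^ 2 ≤ 1) (x : Ten n) :
    ‖∑ z, a z • XT n z x‖ ≤ (√2 * √(Fintype.card ι)) * ‖x‖ := by
  rw [Fintype.sum_sigma] at ha ⊢
  have h1 : ∀ t, ∑ p : Fin (n t) × Fin (n t), a ⟨t, p⟩ • XT n ⟨t, p⟩ x
      = slot t (∑ p, a ⟨t, p⟩ • XI (n t) p) x := by
    intro t
    rw [← slotHom_apply, map_sum]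
    simp only [FunLike.coe_sum, Finset.sum_apply, map_smul, smul_apply]
    rfl
  calc ‖∑ t, ∑ p : Fin (n t) × Fin (n t), a ⟨t, p⟩ • XT n ⟨t, p⟩ x‖
      ≤ ∑ t, ‖∑ p : Fin (n t) × Fin (n t), a ⟨t, p⟩ • XT n ⟨t, p⟩ x‖ := norm_sum_le _ _
    _ ≤ ∑ t, (√2 * √(∑ p : Fin (n t) × Fin (n t), a ⟨t, p⟩ ^ 2)) * ‖x‖ := by
        refine Finset.sum_le_sum fun t _ => ?_
        rw [h1]
        exact norm_slot t _ _ (by positivity) (comb_norm (n t) fun p => a ⟨t, p⟩) x
    _ = √2 * (∑ t, 1 * √(∑ p : Fin (n t) × Fin (n t), a ⟨t, p⟩ ^ 2)) * ‖x‖ := by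
        rw [← Finset.sum_mul, ← Finset.mul_sum]
        simp only [one_mul]
    _ ≤ √2 * (√(∑ _t : ι, (1 : ℝ) ^ 2) *
          √(∑ t, √(∑ p : Fin (n t) × Fin (n t), a ⟨t, p⟩ ^ 2) ^ 2)) * ‖x‖ := by
        gcongr
        exact Real.sum_mul_le_sqrt_mul_sqrt _ _ _
    _ ≤ √2 * (√(Fintype.card ι) * 1) * ‖x‖ := by
        have e1 : ∑ _t : ι, (1 : ℝ) ^ 2 = Fintype.card ι := by simp
        have e2 : √(∑ t, √(∑ p : Fin (n t) × Fin (n t), a ⟨t, p⟩ ^ 2) ^ 2) ≤ 1 := by
          rw [Real.sqrt_le_left one_pos.le]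
          refine le_trans (le_of_eq ?_) (ha.trans (by norm_num))
          refine Finset.sum_congr rfl fun t _ => ?_
          exact Real.sq_sqrt (Finset.sum_nonneg fun i _ => sq_nonneg _)
        rw [e1]
        gcongr
    _ = _ := by ring

/-- Invariance under the one-parameter groups. -/
theorem XT_inv (K : Set (Ten n))
    (hinv : ∀ (t : ι) (U : Matrix.specialOrthogonalGroup (Fin (n t)) ℝ), ∀ x ∈ K,
      act t (U : Matrix (Fin (n t)) (Fin (n t)) ℝ) x ∈ K) : Inv (XT n) K := by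
  intro a
  have h1 : ∑ z, a z • XT n z = ∑ t, slot t (∑ p, a ⟨t, p⟩ • XI (n t) p) := by
    rw [Fintype.sum_sigma]
    refine Finset.sum_congr rfl fun t _ => ?_
    rw [← slotHom_apply, map_sum]
    refine Finset.sum_congr rfl fun p _ => ?_
    rw [map_smul]
    rfl
  rw [h1]
  let _ : NormedAlgebra ℚ (Ten n →L[ℝ] Ten n) := NormedAlgebra.restrictScalars ℚ ℝ _
  let F : Finset ι → (Ten n →L[ℝ] Ten n) := fun s =>
    NormedSpace.exp (∑ t ∈ s, slot t (∑ p, a ⟨t, p⟩ • XI (n t) p))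
  have key : ∀ s : Finset ι, ∀ x ∈ K, F s x ∈ K := by
    intro s
    simp only [F]
    induction s using Finset.induction_on with
    | empty =>
      intro x hx
      rw [Finset.sum_empty, NormedSpace.exp_zero]
      exact hx
    | insert t s hts ih =>
      intro x hx
      rw [Finset.sum_insert hts]
      have hcomm : Commute (slot t (∑ p, a ⟨t, p⟩ • XI (n t) p))
          (∑ u ∈ s, slot u (∑ p, a ⟨u, p⟩ • XI (n u) p)) := by
        refine Commute.sum_right _ _ _ fun u hu => ?_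
        exact slot_comm t u (fun h => hts (h ▸ hu)) _ _
      rw [NormedSpace.exp_add_of_commute hcomm, slot_exp]
      have e : ∀ (A B : Ten n →L[ℝ] Ten n) (x : Ten n), (A * B) x = A (B x) := fun _ _ _ => rfl
      rw [e, slot_eq_act]
      exact hinv t ⟨_, toMat_exp_mem _ (XI_comb_skew fun p => a ⟨t, p⟩)⟩ _ (ih x hx)
  exact key Finset.univ

end Pool.Agent.Q217.TN
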