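import Mathlib
import Pool.Agent.Q217.TN.Main

set_option autoImplicit false
set_option linter.unusedSectionVars false

/-!
# Infinitesimal rotations of alternating tensors
-/

namespace Pool.Agent.Q217.TN

open scoped InnerProductSpace
open Pool.Agent.TH591.Lie Pool.Agent.Y368.Lie Function Module

variable {k n : ℕ}

/-- The tensors of order `k` over `ℝ^n`. -/
abbrev TT (k n : ℕ) := Ten (fun _ : Fin k => n)

/-- The operators of `ℝ^n`. -/
abbrev Op (n : ℕ) := EuclideanSpace ℝ (Fin n) →L[ℝ] EuclideanSpace ℝ (Fin n)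

/-- The alternating tensors: they change the sign if two different indices are exchanged, and they
are zero if two of the indices are equal. -/
noncomputable def altSub (k n : ℕ) : Submodule ℝ (TT k n) where
  carrier := {x | (∀ (t u : Fin k) (p : Fin k → Fin n), t ≠ u →
    x (p ∘ Equiv.swap t u) = -x p)}
  add_mem' := by
    intro x y hx hy t u p h
    rw [PiLp.add_apply, PiLp.add_apply, hx t u p h, hy t u p h]
    ring
  zero_mem' := by
    intro t u p h
    simp
  smul_mem' := by
    intro c x hx t u p h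
    rw [PiLp.smul_apply, PiLp.smul_apply, hx t u p h]
    simp

theorem mem_alt (x : TT k n) : x ∈ altSub k n ↔ ∀ (t u : Fin k) (p : Fin k → Fin n), t ≠ u →
    x (p ∘ Equiv.swap t u) = -x p := Iff.rfl

theorem alt_zero (x : TT k n) (hx : x ∈ altSub k n) (t u : Fin k) (h : t ≠ u)
    (p : Fin k → Fin n) (hp : p t = p u) : x p = 0 := by
  have h1 := hx t u p h
  have h2 : p ∘ Equiv.swap t u = p := by
    funext v
    rw [comp_apply, Equiv.swap_apply_def]
    split_ifs with h3 h4
    · rw [h3, hp]
    · rw [h4, hp]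
    · rfl
  rw [h2] at h1
  linarith

/-- The adjoint of an operator of one index. -/
theorem slot_adj (t : Fin k) (L M : Op n) (h : ∀ v w, ⟪L v, w⟫_ℝ = ⟪v, M w⟫_ℝ) (x y : TT k n) :
    ⟪slot t L x, y⟫_ℝ = ⟪x, slot t M y⟫_ℝ := by
  rcases Nat.eq_zero_or_pos n with h0 | h0
  · have : IsEmpty (Fin k → Fin n) := ⟨fun p => by
      have := (p t).2
      omega⟩
    rw [PiLp.inner_apply, PiLp.inner_apply]
    simp
  have h1 := inner_slot (n := fun _ : Fin k => n) t L x y
  have h2 := inner_slot (n := fun _ : Fin k => n) t M y x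
  have h3 : ∑ p, ⟪L (fib t p x), fib t p y⟫_ℝ = ∑ p, ⟪M (fib t p y), fib t p x⟫_ℝ := by
    refine Finset.sum_congr rfl fun p _ => ?_
    rw [h, real_inner_comm]
  rw [h3, ← h2] at h1
  have hn : (n : ℝ) ≠ 0 := by exact_mod_cast h0.ne'
  rw [mul_left_cancel₀ hn h1, real_inner_comm]

/-- The rank one operator of `v`. -/
noncomputable def rk (v : EuclideanSpace ℝ (Fin n)) : Op n := (innerSL ℝ v).smulRight v

theorem rk_apply (v w : EuclideanSpace ℝ (Fin n)) : rk v w = ⟪v, w⟫_ℝ • v := by
  simp [rk]

theorem rk_symm (v x y : EuclideanSpace ℝ (Fin n)) : ⟪rk v x, y⟫_ℝ = ⟪x, rk v y⟫_ℝ := by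
  rw [rk_apply, rk_apply, real_inner_smul_left, real_inner_smul_right, real_inner_comm]
  rw [real_inner_comm v x]
  ring

theorem rk_mul (v : EuclideanSpace ℝ (Fin n)) : rk v * rk v = (‖v‖ ^ 2) • rk v := by
  ext1 w
  show rk v (rk v w) = (‖v‖ ^ 2) • rk v w
  rw [rk_apply, rk_apply, real_inner_smul_right, real_inner_self_eq_norm_sq, smul_smul, mul_comm]

/-- Two slots, in coordinates. -/
theorem slot_slot (t u : Fin k) (h : t ≠ u) (L M : Op n) (x : TT k n) (p : Fin k → Fin n) :
    slot t L (slot u M x) p = ∑ j, ∑ l, toMat L (p t) j * toMat M (p u) l *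
      x (update (update p t j) u l) := by
  rw [slot_eq_act, slot_eq_act, act_apply]
  refine Finset.sum_congr rfl fun j _ => ?_
  rw [act_apply, Finset.mul_sum]
  refine Finset.sum_congr rfl fun l _ => ?_
  rw [update_of_ne h.symm]
  ring

theorem update_swap (t u : Fin k) (h : t ≠ u) (p : Fin k → Fin n) (j l : Fin n) :
    update (update p t j) u l ∘ Equiv.swap t u = update (update p t l) u j := by
  funext v
  rw [comp_apply]
  by_cases h1 : v = t
  · subst h1
    rw [Equiv.swap_apply_left, update_self, update_of_ne h, update_self]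
  · by_cases h2 : v = u
    · subst h2
      rw [Equiv.swap_apply_right, update_self, update_of_ne h, update_self]
    · rw [Equiv.swap_apply_of_ne_of_ne h1 h2, update_of_ne h2, update_of_ne h1, update_of_ne h2,
        update_of_ne h1]

theorem alt_swap (x : TT k n) (hx : x ∈ altSub k n) (t u : Fin k) (h : t ≠ u)
    (p : Fin k → Fin n) (j l : Fin n) :
    x (update (update p t j) u l) = -x (update (update p t l) u j) := by
  have := hx t u (update (update p t l) u j) h
  rw [update_swap t u h] at this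
  exact this

theorem rk_toMat (v : EuclideanSpace ℝ (Fin n)) (i j : Fin n) : toMat (rk v) i j = v i * v j := by
  rw [toMat_apply, rk_apply]
  simp [EuclideanSpace.inner_single_right, mul_comm]

/-- Pauli's principle, the orthogonality. -/
theorem rk_rk (x : TT k n) (hx : x ∈ altSub k n) (t u : Fin k) (h : t ≠ u)
    (v : EuclideanSpace ℝ (Fin n)) : slot t (rk v) (slot u (rk v) x) = 0 := by
  ext p
  rw [slot_slot t u h, PiLp.zero_apply]
  simp only [rk_toMat]
  have h1 : ∑ j, ∑ l, v (p t) * v j * (v (p u) * v l) * x (update (update p t j) u l)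
      = -∑ j, ∑ l, v (p t) * v j * (v (p u) * v l) * x (update (update p t j) u l) := by
    conv_lhs => rw [Finset.sum_comm]
    rw [← Finset.sum_neg_distrib]
    refine Finset.sum_congr rfl fun j _ => ?_
    rw [← Finset.sum_neg_distrib]
    refine Finset.sum_congr rfl fun l _ => ?_
    rw [alt_swap x hx t u h]
    ring
  linarith

/-- **Pauli's principle**: the density of an alternating tensor in the direction `v`. -/
theorem pauli (x : TT k n) (hx : x ∈ altSub k n) (v : EuclideanSpace ℝ (Fin n)) :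
    ∑ t, ⟪slot t (rk v) x, x⟫_ℝ ≤ ‖v‖ ^ 2 * ‖x‖ ^ 2 := by
  set N := ∑ t, ⟪slot t (rk v) x, x⟫_ℝ with hN
  have h1 : ‖∑ t, slot t (rk v) x‖ ^ 2 = ‖v‖ ^ 2 * N := by
    rw [← real_inner_self_eq_norm_sq, sum_inner, hN, Finset.mul_sum]
    refine Finset.sum_congr rfl fun t _ => ?_
    rw [inner_sum, Finset.sum_eq_single t]
    · rw [← slot_adj t (rk v) (rk v) (rk_symm v)]
      have e : slot t (rk v) (slot t (rk v) x) = slot (n := fun _ : Fin k => n) t (rk v * rk v) x := by
        rw [slot_mul]
        rfl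
      rw [e, rk_mul, ← slotHom_apply, map_smul, slotHom_apply]
      show ⟪(‖v‖ ^ 2) • slot t (rk v) x, x⟫_ℝ = _
      rw [real_inner_smul_left]
    · intro u _ hu
      rw [slot_adj t (rk v) (rk v) (rk_symm v), rk_rk x hx t u hu.symm, inner_zero_right]
    · intro h
      exact absurd (Finset.mem_univ t) h
  have h2 : N = ⟪∑ t, slot t (rk v) x, x⟫_ℝ := by rw [sum_inner]
  have h3 : N ≤ ‖∑ t, slot t (rk v) x‖ * ‖x‖ := by
    rw [h2]
    exact real_inner_le_norm _ _
  by_contra hcon
  push Not at hcon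
  have h4 : 0 ≤ ‖v‖ ^ 2 * ‖x‖ ^ 2 := by positivity
  have h5 : 0 < N := lt_of_le_of_lt h4 hcon
  have h6 : N ^ 2 ≤ ‖v‖ ^ 2 * N * ‖x‖ ^ 2 := by
    rw [← h1, ← mul_pow]
    exact pow_le_pow_left₀ h5.le h3 2
  nlinarith

/-- The sum of an operator over all indices. -/
noncomputable def DD (L : Op n) : TT k n →L[ℝ] TT k n := ∑ t : Fin k, slot t L

theorem DD_apply (L : Op n) (x : TT k n) : DD L x = ∑ t : Fin k, slot t L x := by
  simp [DD]

theorem hs_bound (A : Op n) (x : TT k n) (hx : x ∈ altSub k n) :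
    ∑ t, ‖slot t A x‖ ^ 2 ≤ (∑ i, ∑ j, toMat A i j ^ 2) * ‖x‖ ^ 2 := by
  -- the rows of `A`
  let r : Fin n → EuclideanSpace ℝ (Fin n) := fun i => WithLp.toLp 2 fun j => toMat A i j
  let B : Op n := ∑ i, rk (r i)
  have hB : ∀ v w : EuclideanSpace ℝ (Fin n), ⟪A v, A w⟫_ℝ = ⟪v, B w⟫_ℝ := by
    intro v w
    have h1 : ∀ (v : EuclideanSpace ℝ (Fin n)) i, A v i = ⟪r i, v⟫_ℝ := by
      intro v i
      rw [toMat_sum, PiLp.inner_apply]
      refine Finset.sum_congr rfl fun j _ => ?_
      simp [r, mul_comm]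
    have h2 : B w = ∑ i, ⟪r i, w⟫_ℝ • r i := by
      simp only [B, FunLike.coe_sum, Finset.sum_apply, rk_apply]
    rw [h2, inner_sum, PiLp.inner_apply]
    refine Finset.sum_congr rfl fun i _ => ?_
    rw [real_inner_smul_right, ← h1, real_inner_comm (r i) v, ← h1]
    simp [mul_comm]
  have h1 : ∀ t : Fin k, ‖slot t A x‖ ^ 2 = ⟪slot t B x, x⟫_ℝ := by
    intro t
    rcases Nat.eq_zero_or_pos n with h0 | h0
    · have : IsEmpty (Fin k → Fin n) := ⟨fun p => by
        have := (p t).2
        omega⟩
      rw [← real_inner_self_eq_norm_sq, PiLp.inner_apply, PiLp.inner_apply]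
      simp
    have hn : (n : ℝ) ≠ 0 := by exact_mod_cast h0.ne'
    apply mul_left_cancel₀ hn
    rw [inner_slot (n := fun _ : Fin k => n) t B x x,
      ← norm_fib (n := fun _ : Fin k => n) t (slot t A x)]
    refine Finset.sum_congr rfl fun p _ => ?_
    rw [fib_slot, ← real_inner_self_eq_norm_sq, hB, real_inner_comm]
  have h2 : ∀ t : Fin k, ⟪slot t B x, x⟫_ℝ = ∑ i, ⟪slot t (rk (r i)) x, x⟫_ℝ := by
    intro t
    have e : slot (n := fun _ : Fin k => n) t B x = ∑ i, slot t (rk (r i)) x := by
      simp only [B]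
      rw [← slotHom_apply, map_sum]
      simp only [FunLike.coe_sum, Finset.sum_apply, slotHom_apply]
    rw [e, sum_inner]
  calc ∑ t, ‖slot t A x‖ ^ 2 = ∑ i, ∑ t, ⟪slot t (rk (r i)) x, x⟫_ℝ := by
        rw [Finset.sum_comm]
        exact Finset.sum_congr rfl fun t _ => (h1 t).trans (h2 t)
    _ ≤ ∑ i, ‖r i‖ ^ 2 * ‖x‖ ^ 2 := Finset.sum_le_sum fun i _ => pauli x hx _
    _ = _ := by
        rw [← Finset.sum_mul]
        congr 1
        refine Finset.sum_congr rfl fun i _ => ?_
        rw [EuclideanSpace.real_norm_sq_eq]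

theorem DD_norm (A : Op n) (x : TT k n) (hx : x ∈ altSub k n) :
    ‖DD A x‖ ^ 2 ≤ k * (∑ i, ∑ j, toMat A i j ^ 2) * ‖x‖ ^ 2 := by
  rw [DD_apply]
  calc ‖∑ t : Fin k, slot t A x‖ ^ 2 ≤ (∑ t : Fin k, ‖slot t A x‖) ^ 2 := by
        gcongr
        exact norm_sum_le _ _
    _ ≤ k * ∑ t : Fin k, ‖slot t A x‖ ^ 2 := by
        have := sq_sum_le_card_mul_sum_sq (s := (Finset.univ : Finset (Fin k)))
          (f := fun t => ‖slot t A x‖)
        rwa [Finset.card_univ, Fintype.card_fin] at this
    _ ≤ _ := by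
        rw [mul_assoc]
        gcongr
        exact hs_bound A x hx

/-- The entries of the infinitesimal rotations. -/
theorem XI_toMat (p : Fin n × Fin n) (i j : Fin n) :
    toMat (XI n p) i j = (if p.1 = i then 1 else 0) * (if p.2 = j then 1 else 0)
      - (if p.2 = i then 1 else 0) * (if p.1 = j then 1 else 0) := by
  rw [toMat_apply]
  show (xi p.1 p.2 (EuclideanSpace.single j 1)) i = _
  rw [xi_apply]
  simp only [PiLp.sub_apply, PiLp.smul_apply, bv_apply, smul_eq_mul]
  simp [mul_comm]

theorem comb_toMat (a : Fin n × Fin n → ℝ) (i j : Fin n) :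
    toMat (∑ p, a p • XI n p) i j = a (i, j) - a (j, i) := by
  have h1 : toMat (∑ p, a p • XI n p) i j = ∑ p, a p * toMat (XI n p) i j := by
    rw [toMat_apply]
    simp only [FunLike.coe_sum, Finset.sum_apply, smul_apply, WithLp.ofLp_sum, PiLp.smul_apply,
      smul_eq_mul]
    rfl
  rw [h1, Fintype.sum_prod_type]
  simp only [XI_toMat, mul_sub, Finset.sum_sub_distrib]
  congr 1
  · simp
  · simp

theorem comb_hs (a : Fin n × Fin n → ℝ) :
    ∑ i, ∑ j, toMat (∑ p, a p • XI n p) i j ^ 2 ≤ 4 * ∑ p, a p ^ 2 := by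
  simp only [comb_toMat]
  have h1 : ∑ i, ∑ j, (a (i, j) - a (j, i)) ^ 2 ≤ ∑ i, ∑ j, (2 * a (i, j) ^ 2 + 2 * a (j, i) ^ 2) :=
    Finset.sum_le_sum fun i _ => Finset.sum_le_sum fun j _ => by
      nlinarith [sq_nonneg (a (i, j) + a (j, i))]
  refine h1.trans (le_of_eq ?_)
  simp only [Finset.sum_add_distrib, ← Finset.mul_sum]
  rw [Finset.sum_comm (f := fun i j => a (j, i) ^ 2), Fintype.sum_prod_type]
  ring

/-- The Casimir operator on the alternating tensors, two different indices. -/
theorem cas_two (x : TT k n) (hx : x ∈ altSub k n) (t u : Fin k) (h : t ≠ u) :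
    ∑ p, slot t (XI n p) (slot u (XI n p) x) = (2 : ℝ) • x := by
  ext q
  have h0 : (∑ p, slot t (XI n p) (slot u (XI n p) x)) q
      = ∑ p, slot t (XI n p) (slot u (XI n p) x) q := by
    simp
  rw [h0]
  simp only [slot_slot t u h]
  have h1 : ∀ j l : Fin n, ∑ p, toMat (XI n p) (q t) j * toMat (XI n p) (q u) l
      = 2 * ((if q t = q u then 1 else 0) * (if j = l then 1 else 0))
        - 2 * ((if q t = l then 1 else 0) * (if q u = j then (1 : ℝ) else 0)) := by
    intro j l
    rw [Fintype.sum_prod_type]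
    simp only [XI_toMat]
    have e : ∀ x y : Fin n, ((if x = q t then (1 : ℝ) else 0) * (if y = j then 1 else 0) -
        (if y = q t then (1 : ℝ) else 0) * (if x = j then 1 else 0)) *
        ((if x = q u then (1 : ℝ) else 0) * (if y = l then 1 else 0) -
        (if y = q u then (1 : ℝ) else 0) * (if x = l then 1 else 0))
        = ((if x = q t then (1 : ℝ) else 0) * (if x = q u then (1 : ℝ) else 0)) *
            ((if y = j then 1 else 0) * (if y = l then 1 else 0))
          - ((if x = q t then (1 : ℝ) else 0) * (if x = l then (1 : ℝ) else 0)) *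
            ((if y = j then 1 else 0) * (if y = q u then 1 else 0))
          - ((if x = j then (1 : ℝ) else 0) * (if x = q u then (1 : ℝ) else 0)) *
            ((if y = q t then 1 else 0) * (if y = l then 1 else 0))
          + ((if x = j then (1 : ℝ) else 0) * (if x = l then (1 : ℝ) else 0)) *
            ((if y = q t then 1 else 0) * (if y = q u then 1 else 0)) := by
      intros
      ring
    have e2 : ∀ i1 i2 : Fin n, ∑ x, ((if x = i1 then (1 : ℝ) else 0) * (if x = i2 then (1 : ℝ) else 0))
        = if i1 = i2 then 1 else 0 := by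
      intro i1 i2
      rcases eq_or_ne i1 i2 with h | h
      · subst h
        simp
      · simp [h, h.symm]
    simp only [e, Finset.sum_add_distrib, Finset.sum_sub_distrib, ← Finset.mul_sum,
      ← Finset.sum_mul, e2]
    rw [if_congr (eq_comm (a := j) (b := q u)) rfl rfl]
    ring
  calc ∑ p, ∑ j, ∑ l, toMat (XI n p) (q t) j * toMat (XI n p) (q u) l *
        x (update (update q t j) u l)
      = ∑ j, ∑ l, (∑ p, toMat (XI n p) (q t) j * toMat (XI n p) (q u) l) *
        x (update (update q t j) u l) := by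
        rw [Finset.sum_comm]
        refine Finset.sum_congr rfl fun j _ => ?_
        rw [Finset.sum_comm]
        refine Finset.sum_congr rfl fun l _ => ?_
        rw [Finset.sum_mul]
    _ = ∑ j, ∑ l, (2 * ((if q t = q u then 1 else 0) * (if j = l then 1 else 0))
        - 2 * ((if q t = l then 1 else 0) * (if q u = j then (1 : ℝ) else 0))) *
        x (update (update q t j) u l) := by simp only [h1]
    _ = 2 * (if q t = q u then 1 else 0) * (∑ j, x (update (update q t j) u j))
        - 2 * x (update (update q t (q u)) u (q t)) := by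
        simp only [sub_mul, Finset.sum_sub_distrib]
        congr 1
        · rw [Finset.mul_sum]
          refine Finset.sum_congr rfl fun j _ => ?_
          simp
        · simp
    _ = 2 * x q := by
        have e1 : ∑ j, x (update (update q t j) u j) = 0 :=
          Finset.sum_eq_zero fun j _ => alt_zero x hx t u h _ (by
            rw [update_of_ne h, update_self, update_self])
        rw [e1, alt_swap x hx t u h, update_eq_self, update_eq_self]
        ring
    _ = ((2 : ℝ) • x) q := by
        rw [PiLp.smul_apply, smul_eq_mul]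

/-- **The Casimir operator** on the alternating tensors. -/
theorem cas_alt (x : TT k n) (hx : x ∈ altSub k n) :
    -∑ p, DD (XI n p) (DD (XI n p) x) = (2 * k * ((n : ℝ) - k)) • x := by
  have h1 : ∀ p, DD (XI n p) (DD (XI n p) x)
      = ∑ t : Fin k, ∑ u : Fin k, slot t (XI n p) (slot u (XI n p) x) := by
    intro p
    rw [DD_apply, DD_apply]
    refine Finset.sum_congr rfl fun t _ => ?_
    rw [map_sum]
  have h2 : ∀ t : Fin k, ∑ p, slot t (XI n p) (slot t (XI n p) x) = (-(2 * ((n : ℝ) - 1))) • x := by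
    intro t
    have h : ∑ p : Fin n × Fin n, slot t (XI n p) (slot t (XI n p) x)
        = slotHom (n := fun _ : Fin k => n) t (∑ p : Fin n × Fin n, XI n p * XI n p) x := by
      rw [map_sum]
      simp only [FunLike.coe_sum, Finset.sum_apply, slotHom_apply, slot_mul]
      rfl
    rw [h, sum_XI_sq, map_smul, map_one]
    simp
  simp only [h1]
  rw [Finset.sum_comm]
  have h3 : ∀ t : Fin k, ∑ p, ∑ u : Fin k, slot t (XI n p) (slot u (XI n p) x)
      = (-(2 * ((n : ℝ) - 1)) + 2 * ((k : ℝ) - 1)) • x := by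
    intro t
    rw [Finset.sum_comm, ← Finset.add_sum_erase _ _ (Finset.mem_univ t), h2, add_smul]
    congr 1
    rw [Finset.sum_congr rfl fun u hu => cas_two x hx t u (Finset.ne_of_mem_erase hu).symm]
    rw [Finset.sum_const, Finset.card_erase_of_mem (Finset.mem_univ _), Finset.card_univ,
      Fintype.card_fin, ← Nat.cast_smul_eq_nsmul ℝ, smul_smul, Nat.cast_sub t.pos]
    congr 1
    push_cast
    ring
  simp only [h3]
  rw [Finset.sum_const, Finset.card_univ, Fintype.card_fin, ← Nat.cast_smul_eq_nsmul ℝ, smul_smul,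
    ← neg_smul]
  congr 1
  ring

end Pool.Agent.Q217.TN
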