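import Mathlib
import Pool.Agent.Q217.TN.Alt

set_option autoImplicit false
set_option linter.unusedSectionVars false

/-!
# Alternating forms and rotations
-/

namespace Pool.Agent.Q217.TN

open scoped InnerProductSpace
open Pool.Agent.TH591.Lie Pool.Agent.Y368.Lie Function Module

variable {k n : ℕ}

/-- The alternating forms of degree `k` on `ℝ^n`. -/
abbrev Form (k n : ℕ) := EuclideanSpace ℝ (Fin n) [⋀^Fin k]→L[ℝ] ℝ

/-- The alternating tensors of order `k`, a Euclidean space. -/
abbrev AE (k n : ℕ) := ↥(altSub k n)

/-- The tensor of the coefficients of a form. -/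
noncomputable def coef (f : Form k n) : TT k n := WithLp.toLp 2 fun p => f fun t => bv (p t)

theorem coef_apply (f : Form k n) (p : Fin k → Fin n) : coef f p = f fun t => bv (p t) := rfl

theorem coef_mem (f : Form k n) : coef f ∈ altSub k n := by
  intro t u p h
  rw [coef_apply, coef_apply]
  exact f.toAlternatingMap.map_swap (fun t => bv (p t)) h

/-- The coefficients, as a linear map. -/
noncomputable def coefL (k n : ℕ) : Form k n →ₗ[ℝ] AE k n where
  toFun f := ⟨coef f, coef_mem f⟩
  map_add' f g := by
    apply Subtype.ext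
    ext p
    rfl
  map_smul' c f := by
    apply Subtype.ext
    ext p
    rfl

theorem bv_basis (i : Fin n) : (EuclideanSpace.basisFun (Fin n) ℝ).toBasis i = bv i := by
  simp [bv]

theorem coefL_inj : Injective (coefL k n) := by
  intro f g h
  have h1 : f.toAlternatingMap = g.toAlternatingMap := by
    refine Basis.ext_alternating (EuclideanSpace.basisFun (Fin n) ℝ).toBasis fun v _ => ?_
    simp only [bv_basis]
    have := congrArg (fun z : AE k n => (z : TT k n) v) h
    exact this
  exact ContinuousAlternatingMap.toAlternatingMap_injective h1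

/-- The form with given coefficients, a continuous multilinear map. -/
noncomputable def mform (x : TT k n) :
    ContinuousMultilinearMap ℝ (fun _ : Fin k => EuclideanSpace ℝ (Fin n)) ℝ :=
  ∑ p : Fin k → Fin n, x p • (ContinuousMultilinearMap.mkPiAlgebra ℝ (Fin k) ℝ).compContinuousLinearMap
    fun t => EuclideanSpace.proj (p t)

theorem mform_apply (x : TT k n) (v : Fin k → EuclideanSpace ℝ (Fin n)) :
    mform x v = ∑ p : Fin k → Fin n, x p * ∏ t, v t (p t) := by
  simp [mform]

theorem mform_alt (x : TT k n) (hx : x ∈ altSub k n) (v : Fin k → EuclideanSpace ℝ (Fin n))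
    (t u : Fin k) (hv : v t = v u) (h : t ≠ u) : mform x v = 0 := by
  have h1 : mform x v = -mform x v := by
    conv_lhs => rw [mform_apply]
    rw [mform_apply, ← Finset.sum_neg_distrib,
      ← Equiv.sum_comp (Equiv.arrowCongr (Equiv.swap t u) (Equiv.refl (Fin n)))]
    refine Finset.sum_congr rfl fun p _ => ?_
    have e : (Equiv.arrowCongr (Equiv.swap t u) (Equiv.refl (Fin n))) p = p ∘ Equiv.swap t u := by
      funext w
      simp [Equiv.arrowCongr]
    rw [e, hx t u p h, neg_mul]
    congr 2
    rw [← Equiv.prod_comp (Equiv.swap t u)]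
    refine Finset.prod_congr rfl fun w _ => ?_
    rw [comp_apply, Equiv.swap_apply_self]
    have e1 : v (Equiv.swap t u w) = v w := by
      rw [Equiv.swap_apply_def]
      split_ifs with h1 h2
      · rw [h1, hv]
      · rw [h2, hv]
      · rfl
    rw [e1]
  linarith

/-- The form with given coefficients. -/
noncomputable def form (x : AE k n) : Form k n :=
  { mform (x : TT k n) with
    map_eq_zero_of_eq' := fun v t u hv h => mform_alt x x.2 v t u hv h }

theorem form_apply (x : AE k n) (v : Fin k → EuclideanSpace ℝ (Fin n)) :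
    form x v = mform (x : TT k n) v := rfl

theorem coef_form (x : AE k n) : coefL k n (form x) = x := by
  apply Subtype.ext
  ext p
  show coef (form x) p = _
  rw [coef_apply, form_apply, mform_apply]
  have h1 : ∀ q : Fin k → Fin n, (x : TT k n) q * ∏ t, (bv (p t) : EuclideanSpace ℝ (Fin n)) (q t)
      = if p = q then (x : TT k n) q else 0 := by
    intro q
    simp only [bv_apply]
    split_ifs with h
    · subst h
      simp
    · obtain ⟨t, ht⟩ : ∃ t, p t ≠ q t := by
        by_contra hcon
        push Not at hcon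
        exact h (funext hcon)
      rw [Finset.prod_eq_zero (Finset.mem_univ t) (if_neg ht), mul_zero]
  simp only [h1]
  simp

/-- The forms and their coefficients. -/
noncomputable def WL (k n : ℕ) : Form k n ≃ₗ[ℝ] AE k n :=
  LinearEquiv.ofBijective (coefL k n) ⟨coefL_inj, fun x => ⟨form x, coef_form x⟩⟩

theorem WL_apply (f : Form k n) : ((WL k n f : AE k n) : TT k n) = coef f := rfl

instance : FiniteDimensional ℝ (Form k n) := Module.Finite.equiv (WL k n).symm

theorem finrank_form (k n : ℕ) : finrank ℝ (Form k n) = n.choose k := by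
  let e : Form k n →ₗ[ℝ] (EuclideanSpace ℝ (Fin n) [⋀^Fin k]→ₗ[ℝ] ℝ) :=
    ContinuousAlternatingMap.toAlternatingMapLinear
  have he : Bijective e := by
    constructor
    · exact fun f g h => ContinuousAlternatingMap.toAlternatingMap_injective h
    · intro g
      let x : AE k n := ⟨WithLp.toLp 2 fun p => g fun t => bv (p t), fun t u p h =>
        g.map_swap (fun t => bv (p t)) h⟩
      refine ⟨form x, ?_⟩
      refine Basis.ext_alternating (EuclideanSpace.basisFun (Fin n) ℝ).toBasis fun v _ => ?_
      simp only [bv_basis]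
      have h1 := congrArg (fun z : AE k n => (z : TT k n) v) (coef_form x)
      exact h1
  rw [(LinearEquiv.ofBijective e he).finrank_eq,
    (exteriorPower.alternatingMapLinearEquiv (R := ℝ) (M := EuclideanSpace ℝ (Fin n))
      (N := ℝ) (n := k)).finrank_eq]
  have h2 : finrank ℝ (⋀[ℝ]^k (EuclideanSpace ℝ (Fin n)) →ₗ[ℝ] ℝ)
      = finrank ℝ (⋀[ℝ]^k (EuclideanSpace ℝ (Fin n))) := Subspace.dual_finrank_eq
  rw [h2, exteriorPower.finrank_eq, finrank_euclideanSpace_fin]

theorem DD_mem (L : Op n) (x : TT k n) (hx : x ∈ altSub k n) : DD L x ∈ altSub k n := by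
  intro t u p h
  rw [DD_apply]
  have e1 : ∀ q : Fin k → Fin n, (∑ v : Fin k, slot v L x) q
      = ∑ v, ∑ j, toMat L (q v) j * x (update q v j) := by
    intro q
    rw [WithLp.ofLp_sum, Finset.sum_apply]
    refine Finset.sum_congr rfl fun v _ => ?_
    rw [slot_eq_act, act_apply]
  rw [e1, e1, ← Finset.sum_neg_distrib, ← Equiv.sum_comp (Equiv.swap t u)]
  refine Finset.sum_congr rfl fun v _ => ?_
  rw [← Finset.sum_neg_distrib]
  refine Finset.sum_congr rfl fun j _ => ?_
  have e2 : update (p ∘ Equiv.swap t u) (Equiv.swap t u v) j = (update p v j) ∘ Equiv.swap t u := by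
    funext w
    rw [comp_apply]
    by_cases hw : w = Equiv.swap t u v
    · subst hw
      rw [update_self, Equiv.swap_apply_self, update_self]
    · rw [update_of_ne hw, comp_apply, update_of_ne]
      intro h1
      apply hw
      rw [← h1, Equiv.swap_apply_self]
  rw [e2, hx t u _ h, comp_apply, Equiv.swap_apply_self, mul_neg]

/-- The Euclidean space of the alternating tensors, in orthonormal coordinates. -/
abbrev VV (k n : ℕ) := EuclideanSpace ℝ (Fin (finrank ℝ (altSub k n)))

/-- The coordinates. -/
noncomputable def cc (k n : ℕ) : AE k n ≃ₗᵢ[ℝ] VV k n := (stdOrthonormalBasis ℝ (altSub k n)).repr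

/-- The isometric embedding. -/
noncomputable def JJ (k n : ℕ) : VV k n →ₗᵢ[ℝ] TT k n :=
  (altSub k n).subtypeₗᵢ.comp (cc k n).symm.toLinearIsometry

theorem JJ_mem (v : VV k n) : JJ k n v ∈ altSub k n := ((cc k n).symm v).2

theorem JJ_cc (x : AE k n) : JJ k n (cc k n x) = x := by
  show (((cc k n).symm (cc k n x) : AE k n) : TT k n) = x
  rw [LinearIsometryEquiv.symm_apply_apply]

/-- The forms and their coefficients, with the topology. -/
noncomputable def W (k n : ℕ) : Form k n ≃L[ℝ] VV k n :=
  ((WL k n).trans (cc k n).toLinearEquiv).toContinuousLinearEquiv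

theorem JJ_W (f : Form k n) : JJ k n (W k n f) = coef f := JJ_cc (WL k n f)

theorem finrank_VV (k n : ℕ) : finrank ℝ (VV k n) = n.choose k := by
  rw [← (W k n).toLinearEquiv.finrank_eq, finrank_form]

/-- The sum of an operator over all indices, on the alternating tensors. -/
noncomputable def RR (k : ℕ) {n : ℕ} (L : Op n) : VV k n →L[ℝ] VV k n :=
  LinearMap.toContinuousLinearMap
    { toFun := fun v => cc k n ⟨DD L (JJ k n v), DD_mem L _ (JJ_mem v)⟩
      map_add' := fun v w => by
        rw [← map_add]
        congr 1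
        apply Subtype.ext
        simp
      map_smul' := fun c v => by
        rw [RingHom.id_apply, ← map_smul]
        congr 1
        apply Subtype.ext
        simp }

theorem RR_coe (L : Op n) (v : VV k n) : JJ k n (RR k L v) = DD L (JJ k n v) :=
  JJ_cc ⟨DD L (JJ k n v), DD_mem L _ (JJ_mem v)⟩

theorem RR_exp (L : Op n) (v : VV k n) :
    JJ k n (NormedSpace.exp (RR k L) v) = NormedSpace.exp (DD L) (JJ k n v) := by
  let _ : NormedAlgebra ℚ (TT k n →L[ℝ] TT k n) := NormedAlgebra.restrictScalars ℚ ℝ _
  let _ : NormedAlgebra ℚ (VV k n →L[ℝ] VV k n) := NormedAlgebra.restrictScalars ℚ ℝ _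
  have h1 := NormedSpace.exp_series_hasSum_exp' (𝕂 := ℝ) (RR k L)
  have h2 := NormedSpace.exp_series_hasSum_exp' (𝕂 := ℝ) (DD (k := k) L)
  have h3 := (h1.mapL (ContinuousLinearMap.apply ℝ (VV k n) v)).mapL
    (JJ k n).toContinuousLinearMap
  have h4 := h2.mapL (ContinuousLinearMap.apply ℝ (TT k n) (JJ k n v))
  have h5 : ∀ m : ℕ, JJ k n (((RR k L) ^ m) v) = ((DD (k := k) L) ^ m) (JJ k n v) := by
    intro m
    induction m with
    | zero => rfl
    | succ m ih =>
      rw [pow_succ', pow_succ']
      show JJ k n (RR k L (((RR k L) ^ m) v)) = DD L (((DD (k := k) L) ^ m) (JJ k n v))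
      rw [RR_coe, ih]
  refine HasSum.unique h3 ?_
  have h6 : (fun b : ℕ => (JJ k n).toContinuousLinearMap
      (((ContinuousLinearMap.apply ℝ (VV k n)) v) (((b.factorial : ℝ))⁻¹ • RR k L ^ b)))
      = fun b : ℕ => ((ContinuousLinearMap.apply ℝ (TT k n)) ((JJ k n) v))
        (((b.factorial : ℝ))⁻¹ • (DD (k := k) L) ^ b) := by
    funext m
    show JJ k n ((m.factorial : ℝ)⁻¹ • ((RR k L ^ m) v))
      = (m.factorial : ℝ)⁻¹ • (((DD (k := k) L) ^ m) (JJ k n v))
    rw [map_smul, h5]
  rw [h6]
  exact h4

/-- The `i`-th row of a matrix. -/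
noncomputable def row (M : Matrix (Fin n) (Fin n) ℝ) (i : Fin n) : EuclideanSpace ℝ (Fin n) :=
  ∑ j, M i j • bv j

/-- The exponential of a sum of slots in terms of the forms. -/
theorem exp_slots (A : Op n) (f : Form k n) (s : Finset (Fin k)) :
    ∀ p : Fin k → Fin n, NormedSpace.exp (∑ t ∈ s, slot (n := fun _ : Fin k => n) t A) (coef f) p
      = f fun t => if t ∈ s then row (toMat (NormedSpace.exp A)) (p t) else bv (p t) := by
  let _ : NormedAlgebra ℚ (TT k n →L[ℝ] TT k n) := NormedAlgebra.restrictScalars ℚ ℝ _
  induction s using Finset.induction_on with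
  | empty =>
    intro p
    rw [Finset.sum_empty, NormedSpace.exp_zero]
    simp [coef_apply]
  | insert t s hts ih =>
    intro p
    rw [Finset.sum_insert hts]
    have hcomm : Commute (slot (n := fun _ : Fin k => n) t A)
        (∑ u ∈ s, slot (n := fun _ : Fin k => n) u A) := by
      refine Commute.sum_right _ _ _ fun u hu => ?_
      exact slot_comm t u (fun h => hts (h ▸ hu)) _ _
    rw [NormedSpace.exp_add_of_commute hcomm, slot_exp]
    have e : ∀ (A B : TT k n →L[ℝ] TT k n) (x : TT k n), (A * B) x = A (B x) := fun _ _ _ => rfl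
    rw [e, slot_eq_act, act_apply]
    simp only [ih]
    set v : Fin k → EuclideanSpace ℝ (Fin n) := fun u => if u ∈ s then
      row (toMat (NormedSpace.exp A)) (p u) else bv (p u) with hv
    have h1 : ∀ j : Fin n, (fun u => if u ∈ s then row (toMat (NormedSpace.exp A)) (update p t j u)
        else bv (update p t j u)) = update v t (bv j) := by
      intro j
      funext u
      by_cases hu : u = t
      · subst hu
        rw [if_neg hts, update_self, update_self]
      · rw [update_of_ne hu, update_of_ne hu]
    have h2 : (fun u => if u ∈ insert t s then row (toMat (NormedSpace.exp A)) (p u)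
        else bv (p u)) = update v t (row (toMat (NormedSpace.exp A)) (p t)) := by
      funext u
      by_cases hu : u = t
      · subst hu
        rw [if_pos (Finset.mem_insert_self _ _), update_self]
      · rw [update_of_ne hu, hv]
        simp only [Finset.mem_insert, hu, false_or]
    simp only [h1, h2]
    rw [row]
    have h3 := f.toMultilinearMap.map_update_sum Finset.univ t
      (fun j => toMat (NormedSpace.exp A) (p t) j • bv j) v
    have h4 : ∀ w, f.toMultilinearMap w = f w := fun _ => rfl
    rw [h4] at h3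
    rw [h3]
    refine Finset.sum_congr rfl fun j _ => ?_
    rw [h4]
    exact (f.map_update_smul v t _ _).symm

theorem clm_row (M : Matrix (Fin n) (Fin n) ℝ) (i : Fin n) :
    Matrix.toEuclideanCLM (𝕜 := ℝ) (n := Fin n) M.transpose (bv i) = row M i := by
  ext j
  have h1 : (Matrix.toEuclideanCLM (𝕜 := ℝ) (n := Fin n) M.transpose (bv i)) j
      = (M.transpose.mulVec (Pi.single i 1)) j := by
    have := Matrix.ofLp_toEuclideanCLM (𝕜 := ℝ) M.transpose (bv i)
    rw [this]
    rfl
  rw [h1, Matrix.mulVec_single_one]
  have h2 : row M i j = ∑ l, M i l * (bv l : EuclideanSpace ℝ (Fin n)) j := by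
    rw [row, WithLp.ofLp_sum, Finset.sum_apply]
    rfl
  rw [h2]
  simp [bv_apply]

/-- The rotations of the forms. -/
theorem W_rot (A : Op n) (f : Form k n) :
    W k n (f.compContinuousLinearMap
      (Matrix.toEuclideanCLM (𝕜 := ℝ) (n := Fin n) (toMat (NormedSpace.exp A)).transpose))
      = NormedSpace.exp (RR k A) (W k n f) := by
  apply (JJ k n).injective
  rw [RR_exp, JJ_W, JJ_W]
  ext p
  have h := exp_slots A f Finset.univ p
  have e : (∑ t : Fin k, slot (n := fun _ : Fin k => n) t A) = DD A := rfl
  rw [e] at h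
  rw [h, coef_apply, ContinuousAlternatingMap.compContinuousLinearMap_apply]
  congr 1
  funext t
  rw [comp_apply, clm_row]
  simp

end Pool.Agent.Q217.TN
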