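import Mathlib
import Pool.Agent.Q217.TN.Form

set_option autoImplicit false
set_option linter.unusedSectionVars false

/-!
# Covering of rotation invariant bodies of alternating forms
-/

namespace Pool.Agent.Q217.TN

open scoped InnerProductSpace
open Pool.Agent.TH591.Lie Pool.Agent.Y368.Lie Function Module

variable {k n : ℕ}

/-- The pullback of a form by a matrix. -/
noncomputable def pull (U : Matrix (Fin n) (Fin n) ℝ) (f : Form k n) : Form k n :=
  f.compContinuousLinearMap (Matrix.toEuclideanCLM (𝕜 := ℝ) (n := Fin n) U)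

theorem RR_comb (a : Fin n × Fin n → ℝ) :
    ∑ p, a p • RR k (XI n p) = RR k (∑ p, a p • XI n p) := by
  ext1 v
  apply (JJ k n).injective
  have e : (∑ p, a p • RR k (XI n p)) v = ∑ p, a p • RR k (XI n p) v := by
    simp only [FunLike.coe_sum, Finset.sum_apply]
    rfl
  rw [e, map_sum, RR_coe, DD_apply]
  have h1 : ∀ t : Fin k, slot (n := fun _ : Fin k => n) t (∑ p, a p • XI n p) (JJ k n v)
      = ∑ p, a p • slot t (XI n p) (JJ k n v) := by
    intro t
    rw [← slotHom_apply, map_sum]
    simp only [FunLike.coe_sum, Finset.sum_apply, map_smul]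
    rfl
  simp only [h1]
  rw [Finset.sum_comm]
  refine Finset.sum_congr rfl fun p _ => ?_
  rw [map_smul, RR_coe, DD_apply, Finset.smul_sum]

theorem transpose_mem (M : Matrix (Fin n) (Fin n) ℝ)
    (hM : M ∈ Matrix.specialOrthogonalGroup (Fin n) ℝ) :
    M.transpose ∈ Matrix.specialOrthogonalGroup (Fin n) ℝ := by
  rw [Matrix.mem_specialOrthogonalGroup_iff] at hM ⊢
  refine ⟨?_, by rw [Matrix.det_transpose]; exact hM.2⟩
  rw [Matrix.mem_orthogonalGroup_iff, Matrix.transpose_transpose]
  exact (Matrix.mem_orthogonalGroup_iff' (Fin n) ℝ).1 hM.1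

theorem RR_skew (L : Op n) (hL : Skew L) (v w : VV k n) :
    ⟪RR k L v, w⟫_ℝ = -⟪v, RR k L w⟫_ℝ := by
  rw [← (JJ k n).inner_map_map, ← (JJ k n).inner_map_map v, RR_coe, RR_coe, DD_apply, DD_apply,
    sum_inner, inner_sum, ← Finset.sum_neg_distrib]
  exact Finset.sum_congr rfl fun t _ => slot_skew (n := fun _ : Fin k => n) t L hL _ _

theorem two_le_choose (hk : 1 ≤ k) (hkn : k < n) : 2 ≤ n.choose k := by
  obtain ⟨m, rfl⟩ : ∃ m, n = m + 1 := ⟨n - 1, by omega⟩
  obtain ⟨l, rfl⟩ : ∃ l, k = l + 1 := ⟨k - 1, by omega⟩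
  rw [Nat.choose_succ_succ']
  have h1 := Nat.choose_pos (n := m) (k := l) (by omega)
  have h2 := Nat.choose_pos (n := m) (k := l + 1) (by omega)
  omega

/-- **Covering of the bodies of alternating forms.** -/
theorem cover_form (hk : 1 ≤ k) (hkn : k < n) (K : Set (Form k n)) (hK : Convex ℝ K)
    (hKc : IsCompact K) (hKi : (interior K).Nonempty)
    (hinv : ∀ U ∈ Matrix.specialOrthogonalGroup (Fin n) ℝ, ∀ f ∈ K, pull U f ∈ K)
    (a : ℝ) (ha : 0 < a) (hKa : ∀ f ∈ K, -(a⁻¹ • f) ∈ K) :
    ∃ T : Finset (Form k n), K ⊆ ⋃ t ∈ T, (fun x => t + x) '' interior K ∧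
      (T.card : ℝ) ≤ 1 + 13 * finrank ℝ (Form k n) * Real.log (2 * finrank ℝ (Form k n) ^ 2
        + 2 * finrank ℝ (Form k n) + 1) * 2 ^ finrank ℝ (Form k n)
        * Real.exp (-(((n : ℝ) - k) / (960 * (1 + a) ^ 2))) := by
  classical
  have hk' : (1 : ℝ) ≤ k := by exact_mod_cast hk
  have hkn' : (k : ℝ) < n := by exact_mod_cast hkn
  have hq : 0 < 2 * k * ((n : ℝ) - k) := by
    have : 0 < (n : ℝ) - k := by linarith
    positivity
  have hfr : finrank ℝ (VV k n) = finrank ℝ (Form k n) := by rw [finrank_VV, finrank_form]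
  set K' : Set (VV k n) := W k n '' K with hK'
  have h := cover_scalar' (fun p => RR k (XI n p)) (fun p => RR_skew _ (XI_skew p))
    (2 * k * ((n : ℝ) - k)) hq ?_ (2 * √k) (by positivity) ?_ K' ?_ ?_ ?_ ?_ a ha ?_ ?_
  · obtain ⟨T, h1, h2⟩ := h
    refine ⟨T.image (W k n).symm, ?_, ?_⟩
    · intro f hf
      have h3 := h1 (Set.mem_image_of_mem (W k n) hf)
      simp only [Set.mem_iUnion, exists_prop] at h3 ⊢
      obtain ⟨t, ht, y, hy, hty⟩ := h3
      have h4 : interior K' = W k n '' interior K := by
        rw [hK']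
        exact ((W k n).toHomeomorph.image_interior K).symm
      rw [h4] at hy
      obtain ⟨g, hg, rfl⟩ := hy
      refine ⟨(W k n).symm t, Finset.mem_image_of_mem _ ht, g, hg, ?_⟩
      apply (W k n).injective
      show W k n ((W k n).symm t + g) = W k n f
      rw [map_add, ContinuousLinearEquiv.apply_symm_apply, ← hty]
    · have h5 : ((T.image (W k n).symm).card : ℝ) ≤ T.card := by exact_mod_cast Finset.card_image_le
      refine h5.trans (h2.trans (le_of_eq ?_))
      rw [hfr]
      congr 3
      rw [mul_pow, Real.sq_sqrt (by positivity)]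
      field_simp
      ring
  · intro v
    apply (JJ k n).injective
    rw [map_neg, map_sum, map_smul]
    simp only [RR_coe]
    exact cas_alt _ (JJ_mem v)
  · intro b hb v
    have e1 : ∑ p, b p • RR k (XI n p) v = RR k (∑ p, b p • XI n p) v := by
      rw [← RR_comb]
      simp only [FunLike.coe_sum, Finset.sum_apply]
      rfl
    rw [e1, ← (JJ k n).norm_map, ← (JJ k n).norm_map v, RR_coe]
    have h1 := DD_norm (∑ p, b p • XI n p) _ (JJ_mem v)
    have h2 := comb_hs b
    apply le_of_sq_le_sq _ (by positivity)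
    rw [mul_pow, mul_pow, Real.sq_sqrt (by positivity)]
    refine h1.trans ?_
    have h3 : k * (∑ i, ∑ j, toMat (∑ p, b p • XI n p) i j ^ 2) ≤ 2 ^ 2 * (k : ℝ) := by
      rw [mul_comm]
      gcongr
      linarith
    gcongr
  · rw [finrank_VV]
    exact two_le_choose hk hkn
  · exact hK.linear_image (W k n : Form k n →ₗ[ℝ] VV k n)
  · exact hKc.image (W k n).continuous
  · have h4 : interior K' = W k n '' interior K := by
      rw [hK']
      exact ((W k n).toHomeomorph.image_interior K).symm
    rw [h4]
    exact hKi.image _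
  · rintro _ ⟨f, hf, rfl⟩
    exact ⟨_, hKa f hf, by rw [map_neg, map_smul]⟩
  · rintro b _ ⟨f, hf, rfl⟩
    rw [RR_comb, ← W_rot]
    refine ⟨_, hinv _ (transpose_mem _ (toMat_exp_mem _ (XI_comb_skew b))) f hf, rfl⟩

theorem coef_diag (ε : Fin n → ℝ) (f : Form k n) (p : Fin k → Fin n) :
    coef (pull (Matrix.diagonal ε) f) p = (∏ t, ε (p t)) * coef f p := by
  have h1 : ∀ i, Matrix.toEuclideanCLM (𝕜 := ℝ) (n := Fin n) (Matrix.diagonal ε) (bv i)
      = ε i • bv i := by
    intro i
    ext j
    have := Matrix.ofLp_toEuclideanCLM (𝕜 := ℝ) (Matrix.diagonal ε) (bv i)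
    rw [this, Matrix.mulVec_diagonal]
    rw [PiLp.smul_apply, bv_apply, smul_eq_mul]
    split_ifs with h
    · rw [h]
    · simp
  rw [coef_apply, pull, ContinuousAlternatingMap.compContinuousLinearMap_apply, coef_apply]
  have h2 : (Matrix.toEuclideanCLM (𝕜 := ℝ) (n := Fin n) (Matrix.diagonal ε)) ∘
      (fun t => (bv (p t) : EuclideanSpace ℝ (Fin n))) = fun t => ε (p t) • bv (p t) := by
    funext t
    rw [comp_apply, h1]
  rw [h2]
  exact f.toMultilinearMap.map_smul_univ (fun t => ε (p t)) fun t => bv (p t)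

theorem form_ext (f g : Form k n) (h : ∀ p, Injective p → coef f p = coef g p) : f = g := by
  have h1 : f.toAlternatingMap = g.toAlternatingMap := by
    refine Basis.ext_alternating (EuclideanSpace.basisFun (Fin n) ℝ).toBasis fun v hv => ?_
    simp only [bv_basis]
    exact h v hv
  exact ContinuousAlternatingMap.toAlternatingMap_injective h1

/-- An invariant body of forms of odd degree is almost symmetric. -/
theorem almost_symm_form (hk : Odd k) (hkn : 2 * k < n) (K : Set (Form k n)) (hK : Convex ℝ K)
    (hinv : ∀ U ∈ Matrix.specialOrthogonalGroup (Fin n) ℝ, ∀ f ∈ K, pull U f ∈ K)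
    (f : Form k n) (hf : f ∈ K) : -(((n : ℝ) / (n - 2 * k))⁻¹ • f) ∈ K := by
  have hkn' : 2 * (k : ℝ) < n := by exact_mod_cast hkn
  have hk0 : (1 : ℝ) ≤ k := by exact_mod_cast hk.pos
  have hn0 : (0 : ℝ) < n := by linarith
  rcases Nat.even_or_odd n with he | ho
  · have h1 : -f ∈ K := by
      have h2 := hinv _ (diag_mem (fun _ : Fin n => -1) (fun _ => by norm_num) (by
        rw [Finset.prod_const, Finset.card_univ, Fintype.card_fin, he.neg_one_pow])) f hf
      have h3 : pull (Matrix.diagonal fun _ : Fin n => (-1 : ℝ)) f = -f := by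
        apply form_ext
        intro p _
        rw [coef_diag, Finset.prod_const, Finset.card_univ, Fintype.card_fin, hk.neg_one_pow]
        rw [coef_apply, coef_apply]
        simp
      rwa [h3] at h2
    have h := hK h1 hf (a := 1 - k / (n : ℝ)) (b := k / (n : ℝ))
      (by rw [sub_nonneg, div_le_one hn0]; linarith) (by positivity) (by ring)
    have e : (1 - k / (n : ℝ)) • -f + (k / (n : ℝ)) • f = -(((n : ℝ) / (n - 2 * k))⁻¹ • f) := by
      rw [smul_neg, ← sub_eq_neg_add, ← neg_sub, ← sub_smul]
      congr 2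
      field_simp
      ring
    rwa [e] at h
  · have h1 : ∀ j : Fin n,
        pull (Matrix.diagonal fun i : Fin n => if i = j then (1 : ℝ) else -1) f ∈ K := by
      intro j
      refine hinv _ (diag_mem _ (fun i => ?_) ?_) f hf
      · split_ifs <;> norm_num
      · rw [Finset.prod_ite, Finset.prod_const_one, one_mul, Finset.prod_const]
        have : (Finset.univ.filter fun i => ¬ i = j).card = n - 1 := by
          rw [Finset.filter_ne', Finset.card_erase_of_mem (Finset.mem_univ j), Finset.card_univ,
            Fintype.card_fin]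
        rw [this]
        exact (Nat.Odd.sub_odd ho odd_one).neg_one_pow
    have h2 : ∑ j : Fin n, (1 / (n : ℝ)) • pull (Matrix.diagonal fun i : Fin n =>
        if i = j then (1 : ℝ) else -1) f ∈ K := by
      refine hK.sum_mem (fun _ _ => by positivity) ?_ fun j _ => h1 j
      rw [Finset.sum_const, Finset.card_univ, Fintype.card_fin, nsmul_eq_mul]
      field_simp
    have e : ∑ j : Fin n, (1 / (n : ℝ)) • pull (Matrix.diagonal fun i : Fin n =>
        if i = j then (1 : ℝ) else -1) f = -(((n : ℝ) / (n - 2 * k))⁻¹ • f) := by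
      apply form_ext
      intro p hp
      have e1 : coef (∑ j : Fin n, (1 / (n : ℝ)) • pull (Matrix.diagonal fun i : Fin n =>
          if i = j then (1 : ℝ) else -1) f) p = ∑ j : Fin n, (1 / (n : ℝ)) *
          coef (pull (Matrix.diagonal fun i : Fin n => if i = j then (1 : ℝ) else -1) f) p := by
        rw [coef_apply]
        simp [coef_apply]
      have e2 : coef (-(((n : ℝ) / (n - 2 * k))⁻¹ • f)) p
          = -(((n : ℝ) / (n - 2 * k))⁻¹ * coef f p) := by
        rw [coef_apply, coef_apply]
        simp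
      rw [e1, e2]
      simp only [coef_diag]
      have e3 : ∀ j : Fin n, ∏ t, (if p t = j then (1 : ℝ) else -1)
          = -1 + 2 * ((Finset.univ.filter fun t => p t = j).card : ℝ) := by
        intro j
        rw [Finset.prod_ite, Finset.prod_const_one, one_mul, Finset.prod_const]
        have h5 : (Finset.univ.filter fun t => p t = j).card
            + (Finset.univ.filter fun t => ¬ p t = j).card = k := by
          rw [Finset.card_filter_add_card_filter_not, Finset.card_univ, Fintype.card_fin]
        have h6 : (Finset.univ.filter fun t => p t = j).card ≤ 1 := by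
          rw [Finset.card_le_one]
          intro a ha b hb
          rw [Finset.mem_filter] at ha hb
          exact hp (ha.2.trans hb.2.symm)
        interval_cases h7 : (Finset.univ.filter fun t => p t = j).card
        · have : (Finset.univ.filter fun t => ¬ p t = j).card = k := by omega
          rw [this, hk.neg_one_pow]
          norm_num
        · have : (Finset.univ.filter fun t => ¬ p t = j).card = k - 1 := by omega
          rw [this, (Nat.Odd.sub_odd hk odd_one).neg_one_pow]
          norm_num
      have e4 : ∑ j : Fin n, ((Finset.univ.filter fun t => p t = j).card : ℝ) = k := by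
        have := Finset.card_eq_sum_card_fiberwise (s := (Finset.univ : Finset (Fin k)))
          (t := (Finset.univ : Finset (Fin n))) (f := p) (fun _ _ => Finset.mem_univ _)
        rw [Finset.card_univ, Fintype.card_fin] at this
        exact_mod_cast this.symm
      simp only [e3]
      rw [← Finset.mul_sum, ← Finset.sum_mul, Finset.sum_add_distrib, ← Finset.mul_sum, e4]
      rw [Finset.sum_const, Finset.card_univ, Fintype.card_fin, nsmul_eq_mul]
      have h8 : (n : ℝ) - 2 * k ≠ 0 := by linarith
      field_simp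
      ring
    rwa [e] at h2

/-- The logarithm of a binomial coefficient. -/
theorem log_choose (hk : 1 ≤ k) (hkn : k ≤ n) :
    Real.log (n.choose k) ≤ k * (1 + Real.log (n / k)) := by
  have hk' : (0 : ℝ) < k := by exact_mod_cast hk
  have hn' : (0 : ℝ) < n := by
    have : 0 < n := by omega
    exact_mod_cast this
  have hc : (0 : ℝ) < n.choose k := by exact_mod_cast Nat.choose_pos hkn
  have h1 : (n.choose k : ℝ) ≤ (n / k : ℝ) ^ k * Real.exp k := by
    calc (n.choose k : ℝ) ≤ (n : ℝ) ^ k / k.factorial := Nat.choose_le_pow_div k n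
      _ = (n / k : ℝ) ^ k * ((k : ℝ) ^ k / k.factorial) := by
        rw [div_pow]
        field_simp
      _ ≤ _ := by
        gcongr
        exact Real.pow_div_factorial_le_exp _ hk'.le _
  calc Real.log (n.choose k) ≤ Real.log ((n / k : ℝ) ^ k * Real.exp k) := Real.log_le_log hc h1
    _ = k * (1 + Real.log (n / k)) := by
      have h2 : (n / k : ℝ) ≠ 0 := (div_pos hn' hk').ne'
      rw [Real.log_mul (pow_ne_zero _ h2) (Real.exp_pos _).ne', Real.log_exp, Real.log_pow]
      ring

theorem num_form (hk : 1 ≤ k) (hkn : 300000 * k ≤ n) :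
    5 + 2 * Real.log (n.choose k) ≤ ((n : ℝ) - k) / 8640 := by
  have hk' : (1 : ℝ) ≤ k := by exact_mod_cast hk
  have hn' : 300000 * (k : ℝ) ≤ n := by exact_mod_cast hkn
  have hn0 : (0 : ℝ) < n := by linarith
  have h1 := log_choose (n := n) hk (by omega)
  have h2 : Real.log (n / k) ≤ 12 + (n / k) / 300000 := by
    have e1 : Real.log ((n : ℝ) / k) = Real.log 300000 + Real.log (((n : ℝ) / k) / 300000) := by
      rw [← Real.log_mul (by norm_num) (by positivity)]
      congr 1
      field_simp
    have e2 : Real.log 300000 ≤ 13 := by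
      rw [Real.log_le_iff_le_exp (by norm_num)]
      have h5 : (2.718 : ℝ) ≤ Real.exp 1 := by
        have := Real.exp_one_gt_d9
        linarith
      have h6 : Real.exp 13 = Real.exp 1 ^ 13 := by
        rw [← Real.exp_nat_mul]; norm_num
      rw [h6]
      calc (300000 : ℝ) ≤ 2.718 ^ 13 := by norm_num
        _ ≤ Real.exp 1 ^ 13 := by gcongr
    have e3 := Real.log_le_sub_one_of_pos (show (0 : ℝ) < ((n : ℝ) / k) / 300000 by positivity)
    linarith
  have h3 : Real.log (n.choose k) ≤ 13 * k + n / 300000 := by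
    refine h1.trans ?_
    calc k * (1 + Real.log (n / k)) ≤ k * (1 + (12 + ((n : ℝ) / k) / 300000)) := by gcongr
      _ = 13 * k + n / 300000 := by
        field_simp
        ring
  linarith

end Pool.Agent.Q217.TN
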