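import Mathlib
import Pool.Agent.Q217.TN.Main

set_option autoImplicit false
set_option linter.unusedSectionVars false

/-!
# Irreducible Lie algebras of skew-symmetric operators; covering theorems
-/

namespace Pool.Agent.Q217.TN

open scoped InnerProductSpace
open Pool.Agent.TH591.Lie Pool.Agent.Y368.Lie Function Module

section irr

variable {E : Type} [NormedAddCommGroup E] [InnerProductSpace ℝ E] [FiniteDimensional ℝ E]
variable {ι : Type} [Fintype ι]

/-- The Casimir operator. -/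
noncomputable def casOp (X : ι → E →L[ℝ] E) : E →ₗ[ℝ] E :=
  -∑ i, ((X i : E →ₗ[ℝ] E) ∘ₗ (X i : E →ₗ[ℝ] E))

theorem casOp_apply (X : ι → E →L[ℝ] E) (x : E) : casOp X x = -∑ i, X i (X i x) := by
  simp [casOp]

/-- **Schur's lemma** for the Casimir operator. -/
theorem casimir_scalar (X : ι → E →L[ℝ] E) (hX : ∀ i x y, ⟪X i x, y⟫_ℝ = -⟪x, X i y⟫_ℝ)
    (c : ι → ι → ι → ℝ) (hc : ∀ i j x, X i (X j x) - X j (X i x) = ∑ k, c i j k • X k x)
    (hanti : ∀ i j k, c i j k = -c k j i) (hE : 2 ≤ finrank ℝ E)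
    (hirr : ∀ S : Submodule ℝ E, (∀ i, ∀ x ∈ S, X i x ∈ S) → S = ⊥ ∨ S = ⊤)
    (hne : ∃ i, X i ≠ 0) :
    ∃ q : ℝ, 0 < q ∧ (∀ x, -∑ i, X i (X i x) = q • x) ∧
      q = -(∑ i, LinearMap.trace ℝ E ((X i : E →ₗ[ℝ] E) ∘ₗ (X i : E →ₗ[ℝ] E))) / finrank ℝ E := by
  have hnt : Nontrivial E := by
    apply Module.nontrivial_of_finrank_pos (R := ℝ)
    omega
  have hsym : (casOp X).IsSymmetric := by
    intro x y
    rw [casOp_apply, casOp_apply, inner_neg_left, inner_neg_right, sum_inner, inner_sum]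
    congr 1
    refine Finset.sum_congr rfl fun i _ => ?_
    rw [hX, hX, neg_neg]
  obtain ⟨q, hq⟩ : ∃ q : ℝ, Module.End.HasEigenvalue (casOp X) q :=
    ⟨_, hsym.hasEigenvalue_iSup_of_finiteDimensional⟩
  have hcomm : ∀ j x, casOp X (X j x) = X j (casOp X x) := by
    intro j x
    rw [casOp_apply, casOp_apply, map_neg, map_sum, casimir_comm X c hc hanti j x]
  have htop : Module.End.eigenspace (casOp X) q = ⊤ := by
    rcases hirr (Module.End.eigenspace (casOp X) q) (fun j x hx => by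
      rw [Module.End.mem_eigenspace_iff] at hx ⊢
      rw [hcomm, hx, map_smul]) with h | h
    · exact absurd h hq
    · exact h
  have hall : ∀ x, casOp X x = q • x := by
    intro x
    have : x ∈ Module.End.eigenspace (casOp X) q := by rw [htop]; trivial
    exact Module.End.mem_eigenspace_iff.1 this
  have hpos : ∀ x, ∑ i, ‖X i x‖ ^ 2 = q * ‖x‖ ^ 2 := by
    intro x
    have h1 : ⟪casOp X x, x⟫_ℝ = ∑ i, ‖X i x‖ ^ 2 := by
      rw [casOp_apply, inner_neg_left, sum_inner, ← Finset.sum_neg_distrib]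
      refine Finset.sum_congr rfl fun i _ => ?_
      rw [hX, neg_neg, real_inner_self_eq_norm_sq]
    rw [← h1, hall, real_inner_smul_left, real_inner_self_eq_norm_sq]
  have hq0 : 0 < q := by
    obtain ⟨i, hi⟩ := hne
    obtain ⟨x, hx⟩ : ∃ x, X i x ≠ 0 := by
      by_contra h
      push Not at h
      exact hi (ContinuousLinearMap.ext h)
    have h1 := hpos x
    have h2 : 0 < ‖X i x‖ ^ 2 := by positivity
    have h3 : ‖X i x‖ ^ 2 ≤ ∑ i, ‖X i x‖ ^ 2 :=
      Finset.single_le_sum (f := fun i => ‖X i x‖ ^ 2) (fun _ _ => by positivity)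
        (Finset.mem_univ i)
    by_contra hq
    push Not at hq
    have h4 : q * ‖x‖ ^ 2 ≤ 0 := mul_nonpos_of_nonpos_of_nonneg hq (by positivity)
    linarith
  refine ⟨q, hq0, fun x => by rw [← casOp_apply, hall], ?_⟩
  have h1 : casOp X = q • (1 : E →ₗ[ℝ] E) := by
    ext x
    rw [hall]
    simp
  have h2 := congrArg (LinearMap.trace ℝ E) h1
  rw [map_smul, LinearMap.trace_one, casOp, map_neg, map_sum] at h2
  have h3 : (finrank ℝ E : ℝ) ≠ 0 := by
    have : 0 < finrank ℝ E := by omega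
    exact_mod_cast this.ne'
  rw [h2]
  simp only [smul_eq_mul]
  field_simp

end irr

section tensor

variable {r : ℕ} {n : Fin r → ℕ}

theorem act_diag (t : Fin r) (ε : Fin (n t) → ℝ) (x : Ten n) (p : (t : Fin r) → Fin (n t)) :
    act t (Matrix.diagonal ε) x p = ε (p t) * x p := by
  rw [act_apply]
  simp [Matrix.diagonal_apply, update_eq_self]

/-- An invariant convex set is almost symmetric. -/
theorem almost_symm_act (t : Fin r) (hn : 3 ≤ n t) (K : Set (Ten n)) (hK : Convex ℝ K)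
    (hinv : ∀ U : Matrix.specialOrthogonalGroup (Fin (n t)) ℝ, ∀ x ∈ K,
      act t (U : Matrix (Fin (n t)) (Fin (n t)) ℝ) x ∈ K) (x : Ten n)
    (hx : x ∈ K) : -(((n t : ℝ) / (n t - 2))⁻¹ • x) ∈ K := by
  have hn' : (3 : ℝ) ≤ n t := by exact_mod_cast hn
  have hn0 : (0 : ℝ) < n t := by linarith
  rcases Nat.even_or_odd (n t) with he | ho
  · -- `-1` is a rotation
    have h1 : -x ∈ K := by
      have h2 := hinv ⟨_, diag_mem (fun _ => -1) (fun _ => by norm_num) (by
        rw [Finset.prod_const, Finset.card_univ, Fintype.card_fin, he.neg_one_pow])⟩ x hx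
      have h3 : act t (Matrix.diagonal fun _ : Fin (n t) => (-1 : ℝ)) x = -x := by
        ext p
        rw [act_diag, PiLp.neg_apply]
        ring
      rwa [h3] at h2
    have h := hK h1 hx (a := 1 - 1 / (n t : ℝ)) (b := 1 / (n t : ℝ))
      (by rw [sub_nonneg, div_le_one hn0]; linarith) (by positivity) (by ring)
    have e : (1 - 1 / (n t : ℝ)) • -x + (1 / (n t : ℝ)) • x
        = -(((n t : ℝ) / (n t - 2))⁻¹ • x) := by
      rw [smul_neg, ← sub_eq_neg_add, ← neg_sub, ← sub_smul]
      congr 2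
      field_simp
      ring
    rwa [e] at h
  · -- the average of the diagonal matrices with all entries except one equal to `-1`
    have h1 : ∀ j : Fin (n t),
        act t (Matrix.diagonal fun i : Fin (n t) => if i = j then (1 : ℝ) else -1) x ∈ K := by
      intro j
      refine hinv ⟨_, diag_mem _ (fun i => ?_) ?_⟩ x hx
      · split_ifs <;> norm_num
      · rw [Finset.prod_ite, Finset.prod_const_one, one_mul, Finset.prod_const]
        have : (Finset.univ.filter fun i => ¬ i = j).card = n t - 1 := by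
          rw [Finset.filter_ne', Finset.card_erase_of_mem (Finset.mem_univ j), Finset.card_univ,
            Fintype.card_fin]
        rw [this]
        exact (Nat.Odd.sub_odd ho odd_one).neg_one_pow
    have h2 : ∑ j : Fin (n t), (1 / (n t : ℝ)) • act t (Matrix.diagonal fun i : Fin (n t) =>
        if i = j then (1 : ℝ) else -1) x ∈ K := by
      refine hK.sum_mem (fun _ _ => by positivity) ?_ fun j _ => h1 j
      rw [Finset.sum_const, Finset.card_univ, Fintype.card_fin, nsmul_eq_mul]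
      field_simp
    have e : ∑ j : Fin (n t), (1 / (n t : ℝ)) • act t (Matrix.diagonal fun i : Fin (n t) =>
        if i = j then (1 : ℝ) else -1) x = -(((n t : ℝ) / (n t - 2))⁻¹ • x) := by
      ext p
      rw [WithLp.ofLp_sum, Finset.sum_apply]
      simp only [PiLp.smul_apply, PiLp.neg_apply, smul_eq_mul, act_diag]
      rw [← Finset.mul_sum, ← Finset.sum_mul]
      have h3 : ∑ j : Fin (n t), (if p t = j then (1 : ℝ) else -1) = 2 - n t := by
        rw [Finset.sum_ite, Finset.sum_const, Finset.sum_const, Finset.filter_eq,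
          if_pos (Finset.mem_univ _), Finset.card_singleton, Finset.filter_ne,
          Finset.card_erase_of_mem (Finset.mem_univ _), Finset.card_univ, Fintype.card_fin,
          nsmul_eq_mul, nsmul_eq_mul, Nat.cast_sub (by omega)]
        push_cast
        ring
      rw [h3]
      have h4 : (n t : ℝ) - 2 ≠ 0 := by linarith
      field_simp
      ring
    rwa [e] at h2

theorem finrank_ten (n : Fin r → ℕ) : finrank ℝ (Ten n) = ∏ t, n t := by
  rw [finrank_euclideanSpace, Fintype.card_pi]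
  simp

theorem two_le_finrank (hn : ∀ t, 1 ≤ n t) (h3 : ∃ t, 3 ≤ n t) : 2 ≤ finrank ℝ (Ten n) := by
  rw [finrank_ten]
  obtain ⟨t, ht⟩ := h3
  have : n t ≤ ∏ t, n t := Finset.single_le_prod' (fun i _ => hn i) (Finset.mem_univ t)
  omega

/-- **Covering of the bodies of tensors.** -/
theorem cover_ten (hn : ∀ t, 1 ≤ n t) (h3 : ∃ t, 3 ≤ n t) (K : Set (Ten n)) (hK : Convex ℝ K)
    (hKc : IsCompact K) (hKi : (interior K).Nonempty)
    (hinv : ∀ (t : Fin r) (U : Matrix.specialOrthogonalGroup (Fin (n t)) ℝ), ∀ x ∈ K,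
      act t (U : Matrix (Fin (n t)) (Fin (n t)) ℝ) x ∈ K) (a : ℝ) (ha : 0 < a)
    (hKa : ∀ x ∈ K, -(a⁻¹ • x) ∈ K) :
    ∃ T : Finset (Ten n), K ⊆ ⋃ t ∈ T, (fun x => t + x) '' interior K ∧
      (T.card : ℝ) ≤ 1 + 13 * finrank ℝ (Ten n) * Real.log (2 * finrank ℝ (Ten n) ^ 2
        + 2 * finrank ℝ (Ten n) + 1) * 2 ^ finrank ℝ (Ten n)
        * Real.exp (-((∑ t, ((n t : ℝ) - 1)) / (480 * r * (1 + a) ^ 2))) := by
  obtain ⟨t0, ht0⟩ := h3
  have hr : 0 < r := t0.pos
  have hr' : (0 : ℝ) < r := by exact_mod_cast hr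
  have hq : 0 < ∑ t, 2 * ((n t : ℝ) - 1) := by
    refine Finset.sum_pos' (fun t _ => ?_) ⟨t0, Finset.mem_univ t0, ?_⟩
    · have : (1 : ℝ) ≤ n t := by exact_mod_cast hn t
      linarith
    · have : (3 : ℝ) ≤ n t0 := by exact_mod_cast ht0
      linarith
  let _ : MeasurableSpace (Ten n) := borel (Ten n)
  have _ : BorelSpace (Ten n) := ⟨rfl⟩
  have h := cover_scalar' (XT n) XT_skew (∑ t, 2 * ((n t : ℝ) - 1)) hq XT_casimir
    (√2 * √(Fintype.card (Fin r))) (by rw [Fintype.card_fin]; positivity) XT_norm K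
    (two_le_finrank hn ⟨t0, ht0⟩) hK hKc hKi a ha hKa (XT_inv K hinv)
  have e : (∑ t, 2 * ((n t : ℝ) - 1)) / (480 * (√2 * √(Fintype.card (Fin r))) ^ 2 * (1 + a) ^ 2)
      = (∑ t, ((n t : ℝ) - 1)) / (480 * r * (1 + a) ^ 2) := by
    rw [mul_pow, Real.sq_sqrt (by norm_num), Real.sq_sqrt (by positivity), Fintype.card_fin,
      ← Finset.mul_sum]
    field_simp
  rwa [e] at h

end tensor

end Pool.Agent.Q217.TN
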